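import Mathlib

/-!
Product sets in two-sided shifts of sets of positive density: a counterexample.

The group consists of the pairs `(v, z)` where `v` is a finitely supported vector and `z` a finitely
supported matrix over `ZMod 3`, with `(v, z) (v', z') = (v + v', z + z' + v ⊗ v')`.
-/

namespace Pool.Agent.Results.MP_f087b4_co.NoProductSet

open Filter Topology

/-! ### Definitions used by the statement -/

/-- A left Følner sequence of finite subsets of a group. -/
def IsLeftFolner {G : Type} [Group G] (Φ : ℕ → Finset G) : Prop :=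
  ∀ g : G, Tendsto (fun N => ((((fun x => g * x) '' (Φ N : Set G)) ∩ (Φ N : Set G)).ncard : ℝ) /
    (Φ N).card) atTop (𝓝 1)

/-- A right Følner sequence of finite subsets of a group. -/
def IsRightFolner {G : Type} [Group G] (Φ : ℕ → Finset G) : Prop :=
  ∀ g : G, Tendsto (fun N => ((((fun x => x * g) '' (Φ N : Set G)) ∩ (Φ N : Set G)).ncard : ℝ) /
    (Φ N).card) atTop (𝓝 1)

/-- The upper density of a set along a sequence of finite sets. -/
noncomputable def upperDensity {G : Type} (Φ : ℕ → Finset G) (A : Set G) : ℝ :=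
  limsup (fun N => ((A ∩ (Φ N : Set G)).ncard : ℝ) / (Φ N).card) atTop

/-- Positive upper Banach density: positive upper density along a two-sided Følner sequence. -/
def PosUpperBanachDensity {G : Type} [Group G] (A : Set G) : Prop :=
  ∃ Φ : ℕ → Finset G, IsLeftFolner Φ ∧ IsRightFolner Φ ∧ 0 < upperDensity Φ A

/-- Square absolutely continuous groups. -/
def SquareAbsolutelyContinuous (G : Type) [Group G] : Prop :=
  ∃ Φ Ψ : ℕ → Finset G, IsLeftFolner Φ ∧ IsLeftFolner Ψ ∧
    ∀ ε : ℝ, 0 < ε → ∃ δ : ℝ, 0 < δ ∧ ∀ u : G → ℝ, (∀ g, 0 ≤ u g ∧ u g ≤ 1) →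
      limsup (fun N => (∑ g ∈ Φ N, u g) / (Φ N).card) atTop < δ →
      limsup (fun N => (∑ g ∈ Ψ N, u (g * g)) / (Ψ N).card) atTop < ε

/-- The products of two distinct elements of `B`. -/
def distinctProducts {G : Type} [Group G] (B : Set G) : Set G :=
  {x | ∃ b ∈ B, ∃ c ∈ B, b ≠ c ∧ x = b * c}

/-- The shift `t⁻¹ A r⁻¹`. -/
def shift {G : Type} [Group G] (t : G) (A : Set G) (r : G) : Set G :=
  {x | ∃ a ∈ A, x = t⁻¹ * a * r⁻¹}

/-! ### The group -/

/-- The matrix `v ⊗ w`. -/
noncomputable def outer (v w : ℕ →₀ ZMod 3) : ℕ × ℕ →₀ ZMod 3 :=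
  Finsupp.onFinset (v.support ×ˢ w.support) (fun p => v p.1 * w p.2) (by
    intro p hp
    rw [Finset.mem_product, Finsupp.mem_support_iff, Finsupp.mem_support_iff]
    exact ⟨left_ne_zero_of_mul hp, right_ne_zero_of_mul hp⟩)

theorem outer_apply (v w : ℕ →₀ ZMod 3) (p : ℕ × ℕ) : outer v w p = v p.1 * w p.2 := rfl

/-- The group. -/
@[ext] structure Grp where
  /-- the vector -/
  v : ℕ →₀ ZMod 3
  /-- the matrix -/
  z : ℕ × ℕ →₀ ZMod 3

noncomputable instance : Mul Grp := ⟨fun x y => ⟨x.v + y.v, x.z + y.z + outer x.v y.v⟩⟩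
noncomputable instance : One Grp := ⟨⟨0, 0⟩⟩
noncomputable instance : Inv Grp := ⟨fun x => ⟨-x.v, -x.z + outer x.v x.v⟩⟩

theorem mul_v (x y : Grp) : (x * y).v = x.v + y.v := rfl
theorem mul_z (x y : Grp) : (x * y).z = x.z + y.z + outer x.v y.v := rfl
theorem one_v : (1 : Grp).v = 0 := rfl
theorem one_z : (1 : Grp).z = 0 := rfl
theorem inv_v (x : Grp) : (x⁻¹).v = -x.v := rfl
theorem inv_z (x : Grp) : (x⁻¹).z = -x.z + outer x.v x.v := rfl

noncomputable instance : Group Grp := Group.ofLeftAxioms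
  (by
    intro a b c
    apply Grp.ext
    · simp only [mul_v]
      abel
    · simp only [mul_v, mul_z]
      ext p
      simp only [Finsupp.add_apply, outer_apply]
      ring)
  (by
    intro a
    apply Grp.ext
    · simp only [mul_v, one_v, zero_add]
    · simp only [mul_z, one_v, one_z]
      ext p
      simp [outer_apply])
  (by
    intro a
    apply Grp.ext
    · simp only [mul_v, inv_v, one_v]
      abel
    · simp only [mul_z, inv_v, inv_z, one_z]
      ext p
      simp [outer_apply])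

instance : Countable Grp := by
  have h : Function.Injective (fun x : Grp => (x.v, x.z)) := by
    intro x y hxy
    simp only [Prod.mk.injEq] at hxy
    exact Grp.ext hxy.1 hxy.2
  exact h.countable

/-- The elements supported on `[0, n)`. -/
noncomputable def lev (n : ℕ) : Finset Grp :=
  ((Finset.range n).finsupp (fun _ => (Finset.univ : Finset (ZMod 3))) ×ˢ
    (Finset.range n ×ˢ Finset.range n).finsupp (fun _ => (Finset.univ : Finset (ZMod 3)))).map
    ⟨fun p => ⟨p.1, p.2⟩, by
      intro p q hpq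
      simp only [Grp.mk.injEq] at hpq
      exact Prod.ext hpq.1 hpq.2⟩

theorem mem_finsupp_univ {ι : Type} (s : Finset ι) (v : ι →₀ ZMod 3) :
    v ∈ s.finsupp (fun _ => (Finset.univ : Finset (ZMod 3))) ↔ ∀ i, v i ≠ 0 → i ∈ s := by
  rw [Finset.mem_finsupp_iff]
  constructor
  · rintro ⟨h, -⟩ i hi
    exact h (Finsupp.mem_support_iff.2 hi)
  · intro h
    exact ⟨fun i hi => h i (Finsupp.mem_support_iff.1 hi), fun i _ => Finset.mem_univ _⟩

theorem mem_lev {n : ℕ} {x : Grp} :
    x ∈ lev n ↔ (∀ i, x.v i ≠ 0 → i < n) ∧ ∀ p, x.z p ≠ 0 → p.1 < n ∧ p.2 < n := by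
  unfold lev
  rw [Finset.mem_map]
  constructor
  · rintro ⟨p, hp, rfl⟩
    rw [Finset.mem_product, mem_finsupp_univ, mem_finsupp_univ] at hp
    refine ⟨fun i hi => Finset.mem_range.1 (hp.1 i hi), fun q hq => ?_⟩
    have := hp.2 q hq
    rw [Finset.mem_product, Finset.mem_range, Finset.mem_range] at this
    exact this
  · rintro ⟨h1, h2⟩
    refine ⟨(x.v, x.z), ?_, rfl⟩
    rw [Finset.mem_product, mem_finsupp_univ, mem_finsupp_univ]
    refine ⟨fun i hi => Finset.mem_range.2 (h1 i hi), fun q hq => ?_⟩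
    rw [Finset.mem_product, Finset.mem_range, Finset.mem_range]
    exact h2 q hq

theorem lev_mono {m n : ℕ} (h : m ≤ n) : lev m ⊆ lev n := by
  intro x hx
  rw [mem_lev] at hx ⊢
  exact ⟨fun i hi => (hx.1 i hi).trans_le h,
    fun p hp => ⟨(hx.2 p hp).1.trans_le h, (hx.2 p hp).2.trans_le h⟩⟩

theorem exists_mem_lev (x : Grp) : ∃ n, x ∈ lev n := by
  obtain ⟨a, ha⟩ := x.v.support.exists_nat_subset_range
  obtain ⟨b, hb⟩ := (x.z.support.image Prod.fst).exists_nat_subset_range
  obtain ⟨c, hc⟩ := (x.z.support.image Prod.snd).exists_nat_subset_range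
  refine ⟨a + b + c, mem_lev.2 ⟨fun i hi => ?_, fun p hp => ⟨?_, ?_⟩⟩⟩
  · have := Finset.mem_range.1 (ha (Finsupp.mem_support_iff.2 hi))
    omega
  · have := Finset.mem_range.1 (hb (Finset.mem_image_of_mem _ (Finsupp.mem_support_iff.2 hp)))
    omega
  · have := Finset.mem_range.1 (hc (Finset.mem_image_of_mem _ (Finsupp.mem_support_iff.2 hp)))
    omega

theorem mul_mem_lev {n : ℕ} {x y : Grp} (hx : x ∈ lev n) (hy : y ∈ lev n) : x * y ∈ lev n := by
  rw [mem_lev] at *
  constructor
  · intro i hi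
    rw [mul_v, Finsupp.add_apply] at hi
    by_cases h : x.v i = 0
    · rw [h, zero_add] at hi
      exact hy.1 i hi
    · exact hx.1 i h
  · intro p hp
    rw [mul_z, Finsupp.add_apply, Finsupp.add_apply, outer_apply] at hp
    by_cases h : x.z p = 0
    · by_cases h' : y.z p = 0
      · rw [h, h', zero_add, zero_add] at hp
        exact ⟨hx.1 _ (left_ne_zero_of_mul hp), hy.1 _ (right_ne_zero_of_mul hp)⟩
      · exact hy.2 p h'
    · exact hx.2 p h

theorem inv_mem_lev {n : ℕ} {x : Grp} (hx : x ∈ lev n) : x⁻¹ ∈ lev n := by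
  rw [mem_lev] at *
  constructor
  · intro i hi
    rw [inv_v, Finsupp.neg_apply] at hi
    exact hx.1 i (neg_ne_zero.1 hi)
  · intro p hp
    rw [inv_z, Finsupp.add_apply, Finsupp.neg_apply, outer_apply] at hp
    by_cases h : x.z p = 0
    · rw [h, neg_zero, zero_add] at hp
      exact ⟨hx.1 _ (left_ne_zero_of_mul hp), hx.1 _ (right_ne_zero_of_mul hp)⟩
    · exact hx.2 p h

theorem image_left {n : ℕ} {g : Grp} (hg : g ∈ lev n) :
    ((fun x => g * x) '' (lev n : Set Grp)) ∩ (lev n : Set Grp) = (lev n : Set Grp) := by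
  apply Set.inter_eq_self_of_subset_right
  intro x hx
  refine ⟨g⁻¹ * x, mul_mem_lev (inv_mem_lev hg) hx, ?_⟩
  simp

theorem image_right {n : ℕ} {g : Grp} (hg : g ∈ lev n) :
    ((fun x => x * g) '' (lev n : Set Grp)) ∩ (lev n : Set Grp) = (lev n : Set Grp) := by
  apply Set.inter_eq_self_of_subset_right
  intro x hx
  refine ⟨x * g⁻¹, mul_mem_lev hx (inv_mem_lev hg), ?_⟩
  simp

theorem card_lev (n : ℕ) : (lev n).card = 3 ^ n * 3 ^ (n * n) := by
  unfold lev
  rw [Finset.card_map, Finset.card_product, Finset.card_finsupp, Finset.card_finsupp]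
  simp [ZMod.card]

theorem card_lev_pos (n : ℕ) : (0 : ℝ) < (lev n).card := by
  rw [card_lev]
  positivity

/-- The Følner sequence. -/
noncomputable def fol (K : ℕ) : Finset Grp := lev (2 ^ (K + 1))

theorem eventually_mem_fol (g : Grp) : ∀ᶠ K in atTop, g ∈ fol K := by
  obtain ⟨n, hn⟩ := exists_mem_lev g
  filter_upwards [eventually_ge_atTop n] with K hK
  exact lev_mono (hK.trans ((Nat.lt_two_pow_self (n := K)).le.trans
    (Nat.pow_le_pow_right (by norm_num) (Nat.le_succ K)))) hn

theorem isLeftFolner_fol : IsLeftFolner fol := by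
  intro g
  refine Tendsto.congr' ?_ tendsto_const_nhds
  filter_upwards [eventually_mem_fol g] with K hK
  rw [fol, image_left hK, Set.ncard_coe_finset, div_self (card_lev_pos _).ne']

theorem isRightFolner_fol : IsRightFolner fol := by
  intro g
  refine Tendsto.congr' ?_ tendsto_const_nhds
  filter_upwards [eventually_mem_fol g] with K hK
  rw [fol, image_right hK, Set.ncard_coe_finset, div_self (card_lev_pos _).ne']

/-! ### Square absolute continuity -/

theorem sq_injective : Function.Injective (fun x : Grp => x * x) := by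
  intro x y h
  have h1 : x.v + x.v = y.v + y.v := congrArg Grp.v h
  have h2 : x.z + x.z + outer x.v x.v = y.z + y.z + outer y.v y.v := congrArg Grp.z h
  have three : ∀ a b : ZMod 3, a + a = b + b → a = b := by decide
  have hv : x.v = y.v := by
    ext i
    have := DFunLike.congr_fun h1 i
    simp only [Finsupp.add_apply] at this
    exact three _ _ this
  have hz : x.z = y.z := by
    ext p
    have := DFunLike.congr_fun h2 p
    rw [hv] at this
    simp only [Finsupp.add_apply] at this
    exact three _ _ (add_right_cancel this)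
  exact Grp.ext hv hz

theorem sum_sq (n : ℕ) (u : Grp → ℝ) : ∑ g ∈ lev n, u (g * g) = ∑ g ∈ lev n, u g := by
  classical
  have h : (lev n).image (fun x => x * x) = lev n := by
    apply Finset.eq_of_subset_of_card_le
    · intro x hx
      obtain ⟨y, hy, rfl⟩ := Finset.mem_image.1 hx
      exact mul_mem_lev hy hy
    · rw [Finset.card_image_of_injective _ sq_injective]
  calc ∑ g ∈ lev n, u (g * g) = ∑ g ∈ (lev n).image (fun x => x * x), u g := by
        rw [Finset.sum_image (fun x _ y _ hxy => sq_injective hxy)]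
    _ = _ := by rw [h]

theorem squareAbsolutelyContinuous : SquareAbsolutelyContinuous Grp := by
  refine ⟨fol, fol, isLeftFolner_fol, isLeftFolner_fol, fun ε hε => ⟨ε, hε, fun u _ hu => ?_⟩⟩
  have h : (fun N => (∑ g ∈ fol N, u (g * g)) / ((fol N).card : ℝ)) =
      fun N => (∑ g ∈ fol N, u g) / ((fol N).card : ℝ) := by
    funext N
    rw [fol, sum_sq]
  rw [h]
  exact hu

/-! ### The set -/

/-- Vectors whose support meets each of the windows `[2 ^ k, 2 ^ (k + 1))`, `k ≤ K`, and is
contained in `[0, 2 ^ (K + 1))`. -/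
def Good (K : ℕ) (s : ℕ →₀ ZMod 3) : Prop :=
  (∀ i, s i ≠ 0 → i < 2 ^ (K + 1)) ∧ ∀ k ≤ K, ∃ i, 2 ^ k ≤ i ∧ i < 2 ^ (k + 1) ∧ s i ≠ 0

theorem Good.unique {K L : ℕ} {s : ℕ →₀ ZMod 3} (hK : Good K s) (hL : Good L s) : K = L := by
  have key : ∀ {K L : ℕ}, Good K s → Good L s → ¬ K < L := by
    intro K L hK hL hlt
    obtain ⟨i, h1, _, h3⟩ := hL.2 L le_rfl
    have h4 := hK.1 i h3
    have h5 : 2 ^ (K + 1) ≤ 2 ^ L := Nat.pow_le_pow_right (by norm_num) hlt
    omega
  have := key hK hL
  have := key hL hK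
  omega

open Classical in
/-- A chosen element of the support in the window `k`. -/
noncomputable def pick (s : ℕ →₀ ZMod 3) (k : ℕ) : ℕ :=
  if h : ∃ i, 2 ^ k ≤ i ∧ i < 2 ^ (k + 1) ∧ s i ≠ 0 then h.choose else 0

theorem pick_spec {K : ℕ} {s : ℕ →₀ ZMod 3} (h : Good K s) {k : ℕ} (hk : k ≤ K) :
    2 ^ k ≤ pick s k ∧ pick s k < 2 ^ (k + 1) ∧ s (pick s k) ≠ 0 := by
  have h' := h.2 k hk
  unfold pick
  rw [dif_pos h']
  exact h'.choose_spec

/-- The chain sum. -/
noncomputable def chain (K : ℕ) (s : ℕ →₀ ZMod 3) (z : ℕ × ℕ →₀ ZMod 3) : ZMod 3 :=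
  ∑ k ∈ Finset.range K, z (pick s k, pick s (k + 1)) * (s (pick s k) * s (pick s (k + 1)))⁻¹

theorem chain_sub (K : ℕ) (s : ℕ →₀ ZMod 3) (z z' : ℕ × ℕ →₀ ZMod 3) :
    chain K s z - chain K s z' = chain K s (z - z') := by
  unfold chain
  rw [← Finset.sum_sub_distrib]
  refine Finset.sum_congr rfl fun k _ => ?_
  rw [Finsupp.sub_apply]
  ring

/-- The telescoping identity. -/
theorem chain_comm {K k₀ : ℕ} {s β y w : ℕ →₀ ZMod 3} (hs : Good K s) (hsum : s = β + y + w)
    (hk : k₀ ≤ K) (hw : ∀ i, 2 ^ k₀ ≤ i → w i = 0) (hβy : ∀ i < 2 ^ (k₀ + 1), β i = y i)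
    (hβ : ∀ i, 2 ^ K ≤ i → β i = 0) :
    chain K s (outer β y - outer y β) = 2 := by
  let g : ℕ → ZMod 3 := fun k => β (pick s k) * (s (pick s k))⁻¹
  let h : ℕ → ZMod 3 := fun k => g (max k k₀)
  have hterm : ∀ k ∈ Finset.range K,
      (outer β y - outer y β) (pick s k, pick s (k + 1)) *
        (s (pick s k) * s (pick s (k + 1)))⁻¹ = h k - h (k + 1) := by
    intro k hkK
    rw [Finset.mem_range] at hkK
    obtain ⟨a1, a2, a3⟩ := pick_spec hs hkK.le
    obtain ⟨b1, b2, b3⟩ := pick_spec hs (Nat.succ_le_of_lt hkK)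
    rw [Finsupp.sub_apply, outer_apply, outer_apply]
    rcases Nat.lt_or_ge k k₀ with hlt | hge
    · have e1 : pick s k < 2 ^ (k₀ + 1) :=
        a2.trans_le (Nat.pow_le_pow_right (by norm_num) (by omega))
      have e2 : pick s (k + 1) < 2 ^ (k₀ + 1) :=
        b2.trans_le (Nat.pow_le_pow_right (by norm_num) (by omega))
      have e3 : h k = h (k + 1) := by
        simp only [h]
        rw [max_eq_right hlt.le, max_eq_right (Nat.succ_le_of_lt hlt)]
      rw [e3, sub_self]
      simp only
      rw [hβy _ e1, hβy _ e2, mul_comm (y (pick s k)), sub_self, zero_mul]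
    · have w1 : w (pick s k) = 0 :=
        hw _ ((Nat.pow_le_pow_right (by norm_num) hge).trans a1)
      have w2 : w (pick s (k + 1)) = 0 :=
        hw _ ((Nat.pow_le_pow_right (by norm_num) (by omega)).trans b1)
      have s1 : s (pick s k) = β (pick s k) + y (pick s k) := by
        conv_lhs => rw [hsum]
        rw [Finsupp.add_apply, Finsupp.add_apply, ← hsum, w1, add_zero]
      have s2 : s (pick s (k + 1)) = β (pick s (k + 1)) + y (pick s (k + 1)) := by
        conv_lhs => rw [hsum]
        rw [Finsupp.add_apply, Finsupp.add_apply, ← hsum, w2, add_zero]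
      have e3 : h k - h (k + 1) = β (pick s k) * (s (pick s k))⁻¹ -
          β (pick s (k + 1)) * (s (pick s (k + 1)))⁻¹ := by
        simp only [h, g]
        rw [max_eq_left hge, max_eq_left (by omega)]
      rw [e3]
      have y1 : y (pick s k) = s (pick s k) - β (pick s k) := by rw [s1]; ring
      have y2 : y (pick s (k + 1)) = s (pick s (k + 1)) - β (pick s (k + 1)) := by rw [s2]; ring
      simp only
      rw [y1, y2]
      field_simp
      ring
  unfold chain
  rw [Finset.sum_congr rfl hterm, Finset.sum_range_sub']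
  obtain ⟨a1, a2, a3⟩ := pick_spec hs hk
  obtain ⟨b1, b2, b3⟩ := pick_spec hs (le_refl K)
  have e0 : h 0 = 2 := by
    simp only [h, g]
    rw [max_eq_right (Nat.zero_le _)]
    have w1 : w (pick s k₀) = 0 := hw _ a1
    have s1 : s (pick s k₀) = 2 * β (pick s k₀) := by
      conv_lhs => rw [hsum]
      rw [Finsupp.add_apply, Finsupp.add_apply, ← hsum, w1, add_zero, ← hβy _ a2]
      ring
    have h2 : ∀ b : ZMod 3, b = 2 * (2 * b) := by decide
    rw [mul_inv_eq_iff_eq_mul₀ a3, s1]
    exact h2 _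
  have eK : h K = 0 := by
    simp only [h, g]
    rw [max_eq_left hk, hβ _ b1, zero_mul]
  rw [e0, eK, sub_zero]

/-- The set with the value `c` of the chain sum. -/
def theSet (c : ZMod 3) : Set Grp :=
  {x | ∃ K, x ∈ fol K ∧ Good K x.v ∧ chain K x.v x.z = c}

/-- The commutator of two elements. -/
theorem comm_z (t b c r : Grp) :
    (t * b * c * r).v = (t * c * b * r).v ∧
    (t * b * c * r).z - (t * c * b * r).z = outer b.v c.v - outer c.v b.v := by
  constructor
  · simp only [mul_v]
    abel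
  · simp only [mul_v, mul_z]
    ext p
    simp only [Finsupp.add_apply, Finsupp.sub_apply, outer_apply]
    ring

theorem finite_level (c : ZMod 3) (n : ℕ) : {x ∈ theSet c | ∀ K, Good K x.v → K < n}.Finite := by
  refine (Finset.finite_toSet (lev (2 ^ (n + 1)))).subset ?_
  rintro x ⟨⟨K, hK, hgood, -⟩, hn⟩
  have := hn K hgood
  exact lev_mono (Nat.pow_le_pow_right (by norm_num) (by omega)) hK

theorem no_product_set (c : ZMod 3) (B : Set Grp) (hB : B.Infinite) (t r : Grp) :
    ¬ distinctProducts B ⊆ shift t (theSet c) r := by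
  intro hsub
  have hmem : ∀ b ∈ B, ∀ d ∈ B, b ≠ d → t * b * d * r ∈ theSet c := by
    intro b hb d hd hbd
    obtain ⟨a, ha, hab⟩ := hsub ⟨b, hb, d, hd, hbd, rfl⟩
    have : t * b * d * r = a := by
      rw [mul_assoc t b d, hab]
      group
    rw [this]
    exact ha
  -- the level of `t` and `r`
  obtain ⟨n₁, hn₁⟩ := exists_mem_lev t
  obtain ⟨n₂, hn₂⟩ := exists_mem_lev r
  let k₀ := n₁ + n₂
  let w : ℕ →₀ ZMod 3 := t.v + r.v
  have hw : ∀ i, 2 ^ k₀ ≤ i → w i = 0 := by
    intro i hi
    have h0 : k₀ < 2 ^ k₀ := Nat.lt_two_pow_self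
    have h1 : t.v i = 0 := by
      by_contra hne
      have := (mem_lev.1 hn₁).1 i hne
      omega
    have h2 : r.v i = 0 := by
      by_contra hne
      have := (mem_lev.1 hn₂).1 i hne
      omega
    simp only [w, Finsupp.add_apply, h1, h2, add_zero]
  -- elements of `B` with the same first coordinates
  obtain ⟨a, ha⟩ : ∃ a : Fin (2 ^ (k₀ + 1)) → ZMod 3,
      (B ∩ (fun b : Grp => fun i : Fin (2 ^ (k₀ + 1)) => b.v i) ⁻¹' {a}).Infinite := by
    by_contra hcon
    push Not at hcon
    apply hB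
    have : B = ⋃ a : Fin (2 ^ (k₀ + 1)) → ZMod 3,
        (B ∩ (fun b : Grp => fun i : Fin (2 ^ (k₀ + 1)) => b.v i) ⁻¹' {a}) := by
      ext b
      simp
    rw [this]
    exact Set.finite_iUnion hcon
  obtain ⟨b, hb⟩ := ha.nonempty
  obtain ⟨n₃, hn₃⟩ := exists_mem_lev b
  let n := k₀ + n₃
  -- the other element
  obtain ⟨d, hd, hd'⟩ : ∃ d ∈ B ∩ (fun b : Grp => fun i : Fin (2 ^ (k₀ + 1)) => b.v i) ⁻¹' {a},
      d ∉ insert b ((fun x => t * b * x * r) ⁻¹' {x ∈ theSet c | ∀ K, Good K x.v → K < n}) := by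
    have hfin : (insert b ((fun x => t * b * x * r) ⁻¹'
        {x ∈ theSet c | ∀ K, Good K x.v → K < n})).Finite := by
      apply Set.Finite.insert
      apply (finite_level c n).preimage
      intro x _ y _ hxy
      simpa using hxy
    exact ha.exists_notMem_finite hfin
  rw [Set.mem_insert_iff, not_or] at hd'
  obtain ⟨hdb, hd'⟩ := hd'
  have hu : t * b * d * r ∈ theSet c := hmem b hb.1 d hd.1 (Ne.symm hdb)
  have hv : t * d * b * r ∈ theSet c := hmem d hd.1 b hb.1 hdb
  obtain ⟨hcv, hcz⟩ := comm_z t b d r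
  obtain ⟨K, hK, hgood, hchain⟩ := hu
  obtain ⟨K', hK', hgood', hchain'⟩ := hv
  rw [← hcv] at hgood' hchain'
  have hKK : K = K' := hgood.unique hgood'
  subst hKK
  have hKn : n ≤ K := by
    by_contra hlt
    apply hd'
    refine ⟨⟨K, hK, hgood, hchain⟩, fun L hL => ?_⟩
    have := hgood.unique hL
    omega
  have key : chain K (t * b * d * r).v (outer b.v d.v - outer d.v b.v) = 2 := by
    refine chain_comm (k₀ := k₀) (w := w) hgood ?_ ?_ hw ?_ ?_
    · simp only [mul_v, w]
      abel
    · omega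
    · intro i hi
      have h1 := congrFun (hb.2 : (fun i : Fin (2 ^ (k₀ + 1)) => b.v i) = a) ⟨i, hi⟩
      have h2 := congrFun (hd.2 : (fun i : Fin (2 ^ (k₀ + 1)) => d.v i) = a) ⟨i, hi⟩
      exact h1.trans h2.symm
    · intro i hi
      by_contra hne
      have h1 := (mem_lev.1 hn₃).1 i hne
      have h2 : K < 2 ^ K := Nat.lt_two_pow_self
      omega
  rw [← hcz, ← chain_sub, hchain, hchain', sub_self] at key
  exact absurd key (by decide)

/-! ### Density -/

/-- The vectors supported on `s`. -/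
noncomputable def vec (s : Finset ℕ) : Finset (ℕ →₀ ZMod 3) :=
  s.finsupp (fun _ => (Finset.univ : Finset (ZMod 3)))

theorem card_vec (s : Finset ℕ) : (vec s).card = 3 ^ s.card := by
  unfold vec
  rw [Finset.card_finsupp]
  simp [ZMod.card]

theorem sum_pow (n : ℕ) : ∀ J ≤ n, 2 * ∑ k ∈ Finset.range J, 3 ^ (n - (k + 1)) + 3 ^ (n - J) =
    3 ^ n := by
  intro J
  induction J with
  | zero => intro _; simp
  | succ J ih =>
    intro hJ
    have h := ih (by omega)
    rw [Finset.sum_range_succ]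
    have e : 3 ^ (n - J) = 3 * 3 ^ (n - (J + 1)) := by
      rw [← pow_succ']
      congr 1
      omega
    rw [e] at h
    omega

open Classical in
theorem card_good (K : ℕ) :
    (lev (2 ^ (K + 1))).card ≤ 2 * ((lev (2 ^ (K + 1))).filter (fun x => Good K x.v)).card := by
  set n := 2 ^ (K + 1) with hn
  let Z : Finset (ℕ × ℕ →₀ ZMod 3) := (Finset.range n ×ˢ Finset.range n).finsupp
    (fun _ => (Finset.univ : Finset (ZMod 3)))
  have hZ : Z.card = 3 ^ (n * n) := by
    simp only [Z]
    rw [Finset.card_finsupp]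
    simp [ZMod.card]
  let bad : ℕ → Finset Grp := fun k =>
    (vec (Finset.range n \ Finset.Ico (2 ^ k) (2 ^ (k + 1))) ×ˢ Z).map
      ⟨fun p => ⟨p.1, p.2⟩, by
        intro p q hpq
        simp only [Grp.mk.injEq] at hpq
        exact Prod.ext hpq.1 hpq.2⟩
  have hbad : ∀ k ≤ K, (bad k).card ≤ 3 ^ (n - (k + 1)) * 3 ^ (n * n) := by
    intro k hk
    simp only [bad]
    rw [Finset.card_map, Finset.card_product, hZ, card_vec]
    apply Nat.mul_le_mul_right
    apply Nat.pow_le_pow_right (by norm_num)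
    have hsub : Finset.Ico (2 ^ k) (2 ^ (k + 1)) ⊆ Finset.range n := by
      intro i hi
      rw [Finset.mem_Ico] at hi
      rw [Finset.mem_range, hn]
      exact hi.2.trans_le (Nat.pow_le_pow_right (by norm_num) (by omega))
    rw [Finset.card_sdiff_of_subset hsub, Finset.card_range, Nat.card_Ico]
    have h1 : k < 2 ^ k := Nat.lt_two_pow_self
    have h2 : 2 ^ (k + 1) = 2 ^ k + 2 ^ k := by rw [pow_succ]; omega
    omega
  have hcover : (lev n).filter (fun x => ¬ Good K x.v) ⊆ (Finset.range (K + 1)).biUnion bad := by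
    intro x hx
    rw [Finset.mem_filter] at hx
    obtain ⟨hx1, hx2⟩ := hx
    obtain ⟨hv, hz⟩ := mem_lev.1 hx1
    unfold Good at hx2
    rw [not_and] at hx2
    have hx3 := hx2 hv
    push Not at hx3
    obtain ⟨k, hk, hk'⟩ := hx3
    rw [Finset.mem_biUnion]
    refine ⟨k, Finset.mem_range.2 (by omega), ?_⟩
    simp only [bad]
    rw [Finset.mem_map]
    refine ⟨(x.v, x.z), ?_, rfl⟩
    rw [Finset.mem_product]
    constructor
    · rw [vec, mem_finsupp_univ]
      intro i hi
      rw [Finset.mem_sdiff, Finset.mem_range, Finset.mem_Ico]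
      exact ⟨hv i hi, fun h => hi (hk' i h.1 h.2)⟩
    · rw [mem_finsupp_univ]
      intro q hq
      rw [Finset.mem_product, Finset.mem_range, Finset.mem_range]
      exact hz q hq
  have hle : 2 * ((lev n).filter (fun x => ¬ Good K x.v)).card ≤ (lev n).card := by
    have h1 : ((lev n).filter (fun x => ¬ Good K x.v)).card ≤
        ∑ k ∈ Finset.range (K + 1), 3 ^ (n - (k + 1)) * 3 ^ (n * n) := by
      refine (Finset.card_le_card hcover).trans (Finset.card_biUnion_le.trans ?_)
      exact Finset.sum_le_sum fun k hk => hbad k (by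
        rw [Finset.mem_range] at hk
        omega)
    rw [← Finset.sum_mul] at h1
    have hK : K + 1 ≤ n := by
      rw [hn]
      exact (Nat.lt_two_pow_self (n := K + 1)).le
    have h2 := sum_pow n (K + 1) hK
    rw [card_lev]
    calc 2 * ((lev n).filter (fun x => ¬ Good K x.v)).card
        ≤ 2 * ((∑ k ∈ Finset.range (K + 1), 3 ^ (n - (k + 1))) * 3 ^ (n * n)) :=
          Nat.mul_le_mul_left _ h1
      _ = (2 * ∑ k ∈ Finset.range (K + 1), 3 ^ (n - (k + 1))) * 3 ^ (n * n) := by ring
      _ ≤ 3 ^ n * 3 ^ (n * n) := by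
          apply Nat.mul_le_mul_right
          exact Nat.le.intro h2
  have hsplit := Finset.card_filter_add_card_filter_not (s := lev n) (fun x : Grp => Good K x.v)
  omega

open Classical in
theorem exists_dense (K : ℕ) : ∃ c : ZMod 3,
    (1 / 6 : ℝ) ≤ ((theSet c ∩ (fol K : Set Grp)).ncard : ℝ) / (fol K).card := by
  by_contra hcon
  push Not at hcon
  have hpos : (0 : ℝ) < (fol K).card := card_lev_pos (2 ^ (K + 1))
  have h1 : ∀ c : ZMod 3, ((theSet c ∩ (fol K : Set Grp)).ncard : ℝ) < (fol K).card / 6 := by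
    intro c
    have := hcon c
    rw [div_lt_iff₀ hpos] at this
    simp only [fol] at *
    linarith
  have h2 : ((lev (2 ^ (K + 1))).filter (fun x => Good K x.v)).card ≤
      ∑ c : ZMod 3, (theSet c ∩ (fol K : Set Grp)).ncard := by
    have hsub : (lev (2 ^ (K + 1))).filter (fun x => Good K x.v) ⊆
        (Finset.univ : Finset (ZMod 3)).biUnion
          (fun c => (fol K).filter (fun x => x ∈ theSet c)) := by
      intro x hx
      rw [Finset.mem_filter] at hx
      rw [Finset.mem_biUnion]
      refine ⟨chain K x.v x.z, Finset.mem_univ _, ?_⟩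
      rw [Finset.mem_filter]
      exact ⟨hx.1, K, hx.1, hx.2, rfl⟩
    refine (Finset.card_le_card hsub).trans (Finset.card_biUnion_le.trans ?_)
    refine Finset.sum_le_sum fun c _ => le_of_eq ?_
    rw [← Set.ncard_coe_finset]
    congr 1
    ext x
    rw [Finset.mem_coe, Finset.mem_filter, Set.mem_inter_iff, Finset.mem_coe]
    exact and_comm
  have h3 := card_good K
  have h4 : (((lev (2 ^ (K + 1))).filter (fun x => Good K x.v)).card : ℝ) ≤
      ∑ c : ZMod 3, ((theSet c ∩ (fol K : Set Grp)).ncard : ℝ) := by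
    exact_mod_cast h2
  have h5 : ∑ c : ZMod 3, ((theSet c ∩ (fol K : Set Grp)).ncard : ℝ) <
      ∑ _c : ZMod 3, ((fol K).card : ℝ) / 6 :=
    Finset.sum_lt_sum_of_nonempty Finset.univ_nonempty (fun c _ => h1 c)
  have h6 : ∑ _c : ZMod 3, ((fol K).card : ℝ) / 6 = (fol K).card / 2 := by
    rw [Finset.sum_const, Finset.card_univ, ZMod.card]
    simp only [nsmul_eq_mul]
    push_cast
    ring
  have h7 : ((lev (2 ^ (K + 1))).card : ℝ) ≤
      2 * ((lev (2 ^ (K + 1))).filter (fun x => Good K x.v)).card := by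
    exact_mod_cast h3
  simp only [fol] at *
  linarith

theorem exists_posUpperBanachDensity : ∃ c : ZMod 3, PosUpperBanachDensity (theSet c) := by
  have h : ∃ c : ZMod 3, ∃ᶠ K in atTop,
      (1 / 6 : ℝ) ≤ ((theSet c ∩ (fol K : Set Grp)).ncard : ℝ) / (fol K).card := by
    by_contra hcon
    push Not at hcon
    have h1 : ∀ᶠ K in atTop, ∀ c : ZMod 3,
        ¬ (1 / 6 : ℝ) ≤ ((theSet c ∩ (fol K : Set Grp)).ncard : ℝ) / (fol K).card := by
      rw [Filter.eventually_all]
      intro c
      exact (hcon c).mono fun K hK => not_le.2 hK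
    obtain ⟨K, hK⟩ := h1.exists
    obtain ⟨c, hc⟩ := exists_dense K
    exact hK c hc
  obtain ⟨c, hc⟩ := h
  refine ⟨c, fol, isLeftFolner_fol, isRightFolner_fol, ?_⟩
  have h1 : (1 / 6 : ℝ) ≤ upperDensity fol (theSet c) := by
    refine le_limsup_of_frequently_le hc ?_
    refine ⟨1, ?_⟩
    rw [eventually_map]
    refine Eventually.of_forall fun K => ?_
    have hpos : (0 : ℝ) < (fol K).card := card_lev_pos (2 ^ (K + 1))
    change ((theSet c ∩ (fol K : Set Grp)).ncard : ℝ) / (fol K).card ≤ 1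
    rw [div_le_one hpos]
    have : (theSet c ∩ (fol K : Set Grp)).ncard ≤ (fol K).card := by
      rw [← Set.ncard_coe_finset]
      exact Set.ncard_le_ncard Set.inter_subset_right (Finset.finite_toSet _)
    exact_mod_cast this
  linarith

/-- The group is infinite. -/
theorem infinite_Grp : Infinite Grp := by
  refine Infinite.of_injective (fun n : ℕ => (⟨Finsupp.single n 1, 0⟩ : Grp)) fun m n h => ?_
  have h1 : Finsupp.single m (1 : ZMod 3) = Finsupp.single n (1 : ZMod 3) := congrArg Grp.v h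
  exact Finsupp.single_left_injective (one_ne_zero) h1

/-- There are a countably infinite square absolutely continuous group `G` and a set `A ⊆ G` of
positive upper Banach density such that no two-sided shift of `A` contains all products of two
distinct elements of an infinite set. -/
theorem result : ∃ (G : Type) (_ : Group G), Infinite G ∧ Countable G ∧
    SquareAbsolutelyContinuous G ∧ ∃ A : Set G, PosUpperBanachDensity A ∧
      ∀ B : Set G, B.Infinite → ∀ t r : G, ¬ distinctProducts B ⊆ shift t A r := by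
  obtain ⟨c, hc⟩ := exists_posUpperBanachDensity
  exact ⟨Grp, inferInstance, infinite_Grp, inferInstance, squareAbsolutelyContinuous, theSet c, hc,
    fun B hB t r => no_product_set c B hB t r⟩

end Pool.Agent.Results.MP_f087b4_co.NoProductSet
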